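import Pool.Agent.InnerAm.Main
import Pool.Agent.InnerAm.FromGamma
import Pool.Agent.InnerAm.Inner

/-!
# A finitely generated ICC inner amenable group whose factor does not have property Gamma
-/

namespace Pool.Agent.Results.MP_a818c9_an.FinGenInnerAmenableNotGamma

open Pool.Agent.InnerAm

/-- There is a finitely generated ICC group which is inner amenable and whose group
von Neumann algebra does not have property Gamma. -/
theorem result :
    ∃ (G : Type) (_ : Group G),
      Group.FG G ∧ IsICC G ∧ IsInnerAmenable G ∧ ¬ HasPropertyGamma G := by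
  obtain ⟨B⟩ := exists_blocks
  refine ⟨B.G, inferInstance, B.fg, B.icc, B.innerAmenable, ?_⟩
  intro h
  have hmem : ∀ x : Gen, B.gen x ∈ B.genSet_finite.toFinset := by
    intro x
    rw [Set.Finite.mem_toFinset]
    exact Or.inl ⟨x, rfl⟩
  obtain ⟨ξ, h1, h1', h2, h3, h3', h4⟩ := exists_xi h B.genSet_finite.toFinset
    (ε := 1 / 1000) (by norm_num)
  exact B.no_xi h1 h1' h2 (fun x => h3 _ (hmem x)) (fun x => h3' _ (hmem x)) h4

end Pool.Agent.Results.MP_a818c9_an.FinGenInnerAmenableNotGamma
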